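import Pool.Agent.Helper76.Q5P7.StC

/-!
# Levels `5 * 7^n`, module E1B: even exponent, injectivity

After `Pool/Agent/Helper25/Q5P3/M_E1B.lean` (same group) with `7` in the place of `3`, and the modules E1B of TK7 and Q7P5.
-/

set_option autoImplicit false

namespace Pool.Agent.Helper44.Q5P7

open Pool.Agent.Helper76.Q5P7 Pool.Agent.Helper28.T5
open Pool.Agent.Helper14.CV (Homog EqC act StFar ne_zero_of_det)

private lemma dvd7 {n : ℤ} : (7 : ℤ) ∣ n ↔ (n : ZMod 7) = 0 :=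
  (ZMod.intCast_zmod_eq_zero_iff_dvd n 7).symm

/-- a diagonal entry is a unit -/
private lemma ut (j : ℕ) {a d b c e : ℤ} (h : a * d - 7 * b * (7 * c) = e)
    (he : e = 1 ∨ e = 5) : IsUnit (a : ZMod (7 ^ (j + 1))) := by
  rw [ZMod.coe_int_isUnit_iff_isCoprime]
  push_cast
  apply IsCoprime.pow_left
  rcases he with rfl | rfl
  · exact ⟨-7 * (b * c), d, by linear_combination h⟩
  · exact ⟨-21 * (b * c) - 2, 3 * d, by linear_combination 3 * h⟩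

/-- every matrix has coordinates -/
private lemma exPl (j : ℕ) {a b c d : ℤ} (h : HTy a (7 ^ 1 * b) (7 * c) d) :
    ∃ x y : ZMod (7 ^ (j + 1)), PlH 1 a b c d x y := by
  have he : ∃ e, a * d - 7 * b * (7 * c) = e ∧ (e = 1 ∨ e = 5) := by
    rcases h with h | h
    · exact ⟨1, by linear_combination h.1, Or.inl rfl⟩
    · exact ⟨5, by linear_combination h.1, Or.inr rfl⟩
  obtain ⟨e, h1, h2⟩ := he
  have ha := ut j h1 h2
  have hd := ut j (a := d) (d := a) (b := b) (c := c) (e := e) (by linear_combination h1) h2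
  refine ⟨b * (a : ZMod (7 ^ (j + 1)))⁻¹, c * (d : ZMod (7 ^ (j + 1)))⁻¹, h, ?_, ?_⟩
  · rw [mul_assoc, ZMod.inv_mul_of_unit _ ha, mul_one]
  · rw [mul_assoc, ZMod.inv_mul_of_unit _ hd, mul_one]

/-- images of nonzero vectors -/
private lemma nz {a b c d : ℤ} (h : HTy a b c d) {u1 u2 : ℤ} (hu : u1 ≠ 0 ∨ u2 ≠ 0) :
    a * u1 + b * u2 ≠ 0 ∨ c * u1 + d * u2 ≠ 0 :=
  ne_zero_of_det (a := a) (b := b) (c := c) (d := d) h.det_ne hu

/-- the symmetries of the potential -/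
private structure Inv (G : ℤ → ℤ → ℂ) : Prop where
  hom : Homog G
  st : ∀ x y z w : ℤ, (x ≠ 0 ∨ y ≠ 0) → (z ≠ 0 ∨ w ≠ 0) → G (-x) y - G (-z) w = G x y - G z w
  sw : ∀ x y z w : ℤ, (x ≠ 0 ∨ y ≠ 0) → (z ≠ 0 ∨ w ≠ 0) →
    G y (5 * x) - G w (5 * z) = -(G x y - G z w)

/-- the two vectors have equal values for all matrices -/
private def W (G : ℤ → ℤ → ℂ) (u1 u2 v1 v2 : ℤ) : Prop :=
  (u1 ≠ 0 ∨ u2 ≠ 0) ∧ (v1 ≠ 0 ∨ v2 ≠ 0) ∧ ∀ a b c d : ℤ, HTy a (7 * b) (7 * c) d →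
    G (a * u1 + 7 * b * u2) (7 * c * u1 + d * u2) = G (a * v1 + 7 * b * v2) (7 * c * v1 + d * v2)

section

variable {G : ℤ → ℤ → ℂ}

private lemma W.tr {u1 u2 v1 v2 w1 w2 : ℤ} (h : W G u1 u2 v1 v2) (h' : W G v1 v2 w1 w2) :
    W G u1 u2 w1 w2 :=
  ⟨h.1, h'.2.1, fun a b c d hT => (h.2.2 a b c d hT).trans (h'.2.2 a b c d hT)⟩

private lemma W.sy {u1 u2 v1 v2 : ℤ} (h : W G u1 u2 v1 v2) : W G v1 v2 u1 u2 :=
  ⟨h.2.1, h.1, fun a b c d hT => (h.2.2 a b c d hT).symm⟩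

/-- scaling -/
private lemma W.sc (hI : Inv G) {s1 s2 t1 t2 : ℤ} (h : W G s1 s2 t1 t2) (k l : ℤ)
    {u1 u2 v1 v2 : ℤ} (hs : k ≠ 0 ∧ l ≠ 0 ∧ s1 = k * u1 ∧ s2 = k * u2 ∧ t1 = l * v1 ∧
      t2 = l * v2) : W G u1 u2 v1 v2 := by
  obtain ⟨hk, hl, rfl, rfl, rfl, rfl⟩ := hs
  obtain ⟨h1, h2, h3⟩ := h
  have hu : u1 ≠ 0 ∨ u2 ≠ 0 := by
    rcases h1 with h | h
    · exact Or.inl (right_ne_zero_of_mul h)
    · exact Or.inr (right_ne_zero_of_mul h)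
  have hv : v1 ≠ 0 ∨ v2 ≠ 0 := by
    rcases h2 with h | h
    · exact Or.inl (right_ne_zero_of_mul h)
    · exact Or.inr (right_ne_zero_of_mul h)
  refine ⟨hu, hv, fun a b c d hT => ?_⟩
  have e := h3 a b c d hT
  have f1 := hI.hom k _ _ hk (nz hT hu)
  have f2 := hI.hom l _ _ hl (nz hT hv)
  rw [← f1, ← f2]
  calc _ = _ := by congr 1 <;> ring
    _ = _ := e
    _ = _ := by congr 1 <;> ring

private lemma neq {x y : ℤ} (h : x ≠ 0 ∨ y ≠ 0) : -x ≠ 0 ∨ y ≠ 0 := by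
  rcases h with h | h
  · exact Or.inl (neg_ne_zero.2 h)
  · exact Or.inr h

private lemma swq' {x y : ℤ} (h : x ≠ 0 ∨ y ≠ 0) : -y ≠ 0 ∨ 5 * x ≠ 0 := by
  rcases h with h | h
  · exact Or.inr (by omega)
  · exact Or.inl (neg_ne_zero.2 h)

private lemma swq {x y : ℤ} (h : x ≠ 0 ∨ y ≠ 0) : y ≠ 0 ∨ 5 * x ≠ 0 := by
  rcases h with h | h
  · exact Or.inr (by omega)
  · exact Or.inl h

/-- conjugation by `*` -/
private lemma W.st (hI : Inv G) {u1 u2 v1 v2 : ℤ} (h : W G u1 u2 v1 v2) :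
    W G (-u1) u2 (-v1) v2 := by
  refine ⟨neq h.1, neq h.2.1, fun a b c d hT => ?_⟩
  have hT' : HTy a (7 * -b) (7 * -c) d := by
    rcases hT with ⟨h1, h2⟩ | ⟨h1, h2, h3, h4⟩
    · exact Or.inl ⟨by linear_combination h1, by omega⟩
    · exact Or.inr ⟨by linear_combination h1, h2, by omega, h4⟩
  have e := hI.st _ _ _ _ (nz hT' h.1) (nz hT' h.2.1)
  rw [h.2.2 _ _ _ _ hT', sub_self] at e
  have e' := sub_eq_zero.1 e
  calc _ = _ := by congr 1 <;> ring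
    _ = _ := e'
    _ = _ := by congr 1 <;> ring

/-- conjugation by `b` -/
private lemma W.sw (hI : Inv G) {u1 u2 v1 v2 : ℤ} (h : W G u1 u2 v1 v2) :
    W G u2 (5 * u1) v2 (5 * v1) := by
  refine ⟨swq h.1, swq h.2.1, fun a b c d hT => ?_⟩
  obtain ⟨c', rfl⟩ : ∃ c', c = 5 * c' := by
    rcases hT with ⟨h1, h2⟩ | ⟨h1, h2, h3, h4⟩
    · exact ⟨c / 5, by omega⟩
    · exact ⟨c / 5, by omega⟩
  have hT' : HTy d (7 * c') (7 * (5 * b)) a := by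
    rcases hT with ⟨h1, h2⟩ | ⟨h1, h2, h3, h4⟩
    · exact Or.inl ⟨by linear_combination h1, by omega⟩
    · exact Or.inr ⟨by linear_combination h1, h4, by omega, h2⟩
  have e := hI.sw _ _ _ _ (nz hT' h.1) (nz hT' h.2.1)
  rw [h.2.2 _ _ _ _ hT', sub_self, neg_zero] at e
  have e' := sub_eq_zero.1 e
  calc _ = _ := by congr 1 <;> ring
    _ = _ := e'
    _ = _ := by congr 1 <;> ring

/-- multiplication by a matrix on the right -/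
private lemma W.rm (hI : Inv G) {u1 u2 v1 v2 : ℤ} (h : W G u1 u2 v1 v2) (α β γ δ : ℤ)
    (hm : HTy α (7 * β) (7 * γ) δ) :
    W G (α * u1 + 7 * β * u2) (7 * γ * u1 + δ * u2) (α * v1 + 7 * β * v2)
      (7 * γ * v1 + δ * v2) := by
  refine ⟨nz hm h.1, nz hm h.2.1, fun a b c d hT => ?_⟩
  obtain ⟨k, a', b', c', d', hk, hT', e1, e2, e3, e4⟩ : ∃ k a' b' c' d' : ℤ, k ≠ 0 ∧
      HTy a' (7 * b') (7 * c') d' ∧ a * α + 49 * b * γ = k * a' ∧ a * β + b * δ = k * b' ∧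
      c * α + d * γ = k * c' ∧ 49 * c * β + d * δ = k * d' := by
    rcases hT with ⟨h1, h2⟩ | ⟨h1, h2, h3, h4⟩
    · rcases hm with ⟨g1, g2⟩ | ⟨g1, g2, g3, g4⟩
      · refine ⟨1, a * α + 49 * b * γ, a * β + b * δ, c * α + d * γ, 49 * c * β + d * δ,
          one_ne_zero, Or.inl ⟨?_, ?_⟩, by ring, by ring, by ring, by ring⟩
        · linear_combination (α * δ - 7 * β * (7 * γ)) * h1 + g1
        · obtain ⟨c', rfl⟩ : ∃ c', c = 5 * c' := ⟨c / 5, by omega⟩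
          obtain ⟨γ', rfl⟩ : ∃ γ', γ = 5 * γ' := ⟨γ / 5, by omega⟩
          exact ⟨7 * (c' * α + d * γ'), by ring⟩
      · refine ⟨1, a * α + 49 * b * γ, a * β + b * δ, c * α + d * γ, 49 * c * β + d * δ,
          one_ne_zero, Or.inr ?_, by ring, by ring, by ring, by ring⟩
        obtain ⟨c', rfl⟩ : ∃ c', c = 5 * c' := ⟨c / 5, by omega⟩
        obtain ⟨γ', rfl⟩ : ∃ γ', γ = 5 * γ' := ⟨γ / 5, by omega⟩
        obtain ⟨α', rfl⟩ := g2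
        obtain ⟨δ', rfl⟩ := g4
        refine ⟨?_, ⟨a * α' + 49 * b * γ', by ring⟩, ⟨7 * (c' * (5 * α') + d * γ'), by ring⟩,
          ⟨49 * c' * β + d * δ', by ring⟩⟩
        linear_combination (5 * α' * (5 * δ') - 7 * β * (7 * (5 * γ'))) * h1 + g1
    · rcases hm with ⟨g1, g2⟩ | ⟨g1, g2, g3, g4⟩
      · refine ⟨1, a * α + 49 * b * γ, a * β + b * δ, c * α + d * γ, 49 * c * β + d * δ,
          one_ne_zero, Or.inr ?_, by ring, by ring, by ring, by ring⟩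
        obtain ⟨c', rfl⟩ : ∃ c', c = 5 * c' := ⟨c / 5, by omega⟩
        obtain ⟨γ', rfl⟩ : ∃ γ', γ = 5 * γ' := ⟨γ / 5, by omega⟩
        obtain ⟨a', rfl⟩ := h2
        obtain ⟨d', rfl⟩ := h4
        refine ⟨?_, ⟨a' * α + 49 * b * γ', by ring⟩, ⟨7 * (c' * α + 5 * d' * γ'), by ring⟩,
          ⟨49 * c' * β + d' * δ, by ring⟩⟩
        linear_combination (α * δ - 7 * β * (7 * (5 * γ'))) * h1 + 5 * g1
      · obtain ⟨c', rfl⟩ : ∃ c', c = 5 * c' := ⟨c / 5, by omega⟩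
        obtain ⟨γ', rfl⟩ : ∃ γ', γ = 5 * γ' := ⟨γ / 5, by omega⟩
        obtain ⟨α', rfl⟩ := g2
        obtain ⟨δ', rfl⟩ := g4
        obtain ⟨a', rfl⟩ := h2
        obtain ⟨d', rfl⟩ := h4
        refine ⟨5, a' * (5 * α') + 49 * b * γ', a' * β + b * δ', c' * (5 * α') + d' * (5 * γ'),
          49 * c' * β + d' * (5 * δ'), by norm_num, Or.inl ⟨?_, ?_⟩, by ring, by ring, by ring,
          by ring⟩
        · have e : (25 : ℤ) * ((a' * (5 * α') + 49 * b * γ') * (49 * c' * β + d' * (5 * δ')) -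
              7 * (a' * β + b * δ') * (7 * (c' * (5 * α') + d' * (5 * γ')))) = 25 * 1 := by
            linear_combination (5 * α' * (5 * δ') - 7 * β * (7 * (5 * γ'))) * h1 + 5 * g1
          exact mul_left_cancel₀ (by norm_num : (25 : ℤ) ≠ 0) e
        · exact ⟨7 * (c' * α' + d' * γ'), by ring⟩
  have e := h.2.2 _ _ _ _ hT'
  have f1 := hI.hom k _ _ hk (nz hT' h.1)
  have f2 := hI.hom k _ _ hk (nz hT' h.2.1)
  rw [← f1, ← f2] at e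
  have q1 : ∀ s t : ℤ, a * (α * s + 7 * β * t) + 7 * b * (7 * γ * s + δ * t) =
      k * (a' * s + 7 * b' * t) := by
    intro s t
    linear_combination s * e1 + 7 * t * e2
  have q2 : ∀ s t : ℤ, 7 * c * (α * s + 7 * β * t) + d * (7 * γ * s + δ * t) =
      k * (7 * c' * s + d' * t) := by
    intro s t
    linear_combination 7 * s * e3 + t * e4
  rw [q1, q1, q2, q2]
  exact e

/-- one edge: the matrix is `g ρ`, `ρ = (r1 r2; r3 r4)` -/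
private lemma one {r1 r2 r3 r4 : ℤ} (hr : r1 * r4 - r2 * r3 = 1) (hW : W G r1 r3 r2 r4)
    {p q r s : ℤ} (h : p * s - q * r = 1) (e1 : (7 : ℤ) ∣ q * r1 - p * r2)
    (e2 : (7 : ℤ) ∣ r * r4 - s * r3) (e3 : (5 : ℤ) ∣ r * r4 - s * r3) : G p r = G q s := by
  obtain ⟨b, hb⟩ := e1
  obtain ⟨c, hc⟩ := e2
  have hT : HTy (p * r4 - q * r3) (7 * b) (7 * c) (s * r1 - r * r2) := by
    refine Or.inl ⟨?_, by rw [← hc]; exact e3⟩
    rw [← hb, ← hc]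
    linear_combination (p * s - q * r) * hr + h
  have e := hW.2.2 _ _ _ _ hT
  have g1 : (p * r4 - q * r3) * r1 + 7 * b * r3 = p := by
    linear_combination p * hr - r3 * hb
  have g2 : 7 * c * r1 + (s * r1 - r * r2) * r3 = r := by
    linear_combination r * hr - r1 * hc
  have g3 : (p * r4 - q * r3) * r2 + 7 * b * r4 = q := by
    linear_combination q * hr - r4 * hb
  have g4 : 7 * c * r2 + (s * r1 - r * r2) * r4 = s := by
    linear_combination s * hr - r2 * hc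
  rw [g1, g2, g3, g4] at e
  exact e

/-- absolute values of the cusps -/
private def Cu : List (ℕ × ℕ) :=
  [(1, 0), (0, 1), (1, 2), (1, 1), (2, 1), (3, 1), (7, 2), (3, 2), (8, 5), (12, 5), (13, 5),
   (2, 3), (5, 2), (1, 5), (2, 5), (4, 1), (2, 7), (5, 7), (3, 4), (1, 7), (7, 5), (1, 6),
   (10, 7), (4, 3), (11, 8), (11, 7), (9, 5), (7, 4), (5, 3), (5, 4), (3, 7), (7, 3), (7, 8),
   (6, 7), (3, 5), (1, 3), (1, 4), (4, 5), (8, 11), (8, 3), (3, 8), (4, 7), (7, 9), (5, 8),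
   (5, 6), (11, 13), (10, 3), (5, 9), (9, 16)]

private lemma W.ng (hI : Inv G) {x y : ℤ} (h : W G 1 0 x y) : W G 1 0 (-x) (-y) :=
  h.sc hI 1 (-1) ⟨by norm_num, by norm_num, by norm_num, by norm_num, by ring, by ring⟩

private lemma W.mi (hI : Inv G) {x y : ℤ} (h : W G 1 0 x y) : W G 1 0 (-x) y :=
  (h.st hI).sc hI (-1) 1 ⟨by norm_num, by norm_num, by norm_num, by norm_num, by ring, by ring⟩

/-- the cusps are equivalent to `∞` -/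
private lemma cusps (hI : Inv G) (q0_1 : W G 1 0 0 1) (q1_2 : W G 1 0 1 2) (q1_1 : W G 1 0 1 1)
    (g4 : W G 1 1 3 2) (q2_1 : W G 1 0 2 1) (g6 : W G 8 5 3 2)
    (g7 : W G 5 2 12 5) (g8 : W G 12 5 2 1) (q3_1 : W G 1 0 3 1)
    (g10 : W G 3 1 13 5) (q7_2 : W G 1 0 7 2) (g12 : W G 1 1 2 3) :
    ∀ c ∈ Cu, W G 1 0 (c.1 : ℤ) (c.2 : ℤ) := by
  have m0 : HTy 1 (7 * 1) (7 * 0) 1 := Or.inl (by decide)
  have m1 : HTy (-10) (7 * 1) (7 * 5) (-25) := Or.inr (by decide)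
  have m2 : HTy 25 (7 * (-1)) (7 * (-5)) 10 := Or.inr (by decide)
  have m3 : HTy 5 (7 * 1) (7 * 5) 50 := Or.inr (by decide)
  have m4 : HTy (-50) (7 * (-1)) (7 * (-5)) (-5) := Or.inr (by decide)
  have m5 : HTy (-55) (7 * (-9)) (7 * 5) 40 := Or.inr (by decide)
  have m6 : HTy 65 (7 * 4) (7 * (-5)) (-15) := Or.inr (by decide)
  have m7 : HTy (-61) (7 * (-1)) (7 * 5) 4 := Or.inl (by decide)
  have m8 : HTy 15 (7 * (-4)) (7 * 5) (-65) := Or.inr (by decide)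
  have m9 : HTy 82 (7 * (-1)) (7 * (-5)) 3 := Or.inl (by decide)
  have m10 : HTy 92 (7 * 1) (7 * 15) 8 := Or.inl (by decide)
  have m11 : HTy 65 (7 * (-2)) (7 * 10) (-15) := Or.inr (by decide)
  have m12 : HTy 89 (7 * (-1)) (7 * 20) (-11) := Or.inl (by decide)
  have m13 : HTy 92 (7 * (-3)) (7 * (-5)) 8 := Or.inl (by decide)
  have m14 : HTy 40 (7 * 3) (7 * (-15)) (-55) := Or.inr (by decide)
  have m15 : HTy 20 (7 * 9) (7 * (-5)) (-110) := Or.inr (by decide)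
  have m16 : HTy 235 (7 * 3) (7 * (-40)) (-25) := Or.inr (by decide)
  have m17 : HTy (-37) (7 * 4) (7 * 10) (-53) := Or.inl (by decide)
  have m18 : HTy 116 (7 * 9) (7 * (-5)) (-19) := Or.inl (by decide)
  have m19 : HTy 109 (7 * 4) (7 * 5) 9 := Or.inl (by decide)
  have m20 : HTy 110 (7 * (-9)) (7 * 5) (-20) := Or.inr (by decide)
  have m21 : HTy (-19) (7 * 9) (7 * (-5)) 116 := Or.inl (by decide)
  have m22 : HTy 99 (7 * 8) (7 * 25) 99 := Or.inl (by decide)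
  have q1_0 : W G 1 0 1 0 := q0_1.tr q0_1.sy
  have q3_2 : W G 1 0 3 2 := q1_1.tr g4
  have q8_5 : W G 1 0 8 5 := q3_2.tr g6.sy
  have q12_5 : W G 1 0 12 5 := q2_1.tr g8.sy
  have q13_5 : W G 1 0 13 5 := q3_1.tr g10
  have q2_3 : W G 1 0 2 3 := q1_1.tr g12
  have q5_2 : W G 1 0 5 2 := q12_5.tr g7.sy
  have q1_5 : W G 1 0 1 5 :=
    q1_0.tr (((q0_1.sy.tr q1_1).sw hI).sc hI 1 1 (by norm_num) : W G 1 0 1 5)
  have q2_5 : W G 1 0 2 5 :=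
    q1_0.tr (((q0_1.sy.tr q1_2).sw hI).sc hI 1 1 (by norm_num) : W G 1 0 2 5)
  have q4_1 : W G 1 0 4 1 :=
    q1_0.tr (((q1_0.sy.tr (q3_1.mi hI)).rm hI _ _ _ _ m0).sc hI 1 1 (by norm_num) : W G 1 0 4 1)
  have q2_7 : W G 1 0 2 7 :=
    (((q1_5.mi hI).tr (((q2_3.sy.tr q1_0).rm hI _ _ _ _ m1).sc hI (-1) 5 (by norm_num) : W G (-1) 5 (-2) 7)).st hI).sc hI (-1) 1 (by norm_num)
  have q5_7 : W G 1 0 5 7 :=
    (((q2_3.mi hI).tr (((q1_5.sy.tr q1_0).rm hI _ _ _ _ m2).sc hI 5 (-5) (by norm_num) : W G (-2) 3 (-5) 7)).st hI).sc hI (-1) 1 (by norm_num)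
  have q3_4 : W G 1 0 3 4 :=
    (((q5_7.mi hI).tr (((q1_0.sy.tr q2_5).rm hI _ _ _ _ m2).sc hI (-5) (-5) (by norm_num) : W G (-5) 7 (-3) 4)).st hI).sc hI (-1) 1 (by norm_num)
  have q1_7 : W G 1 0 1 7 :=
    q1_5.tr ((((q3_2.mi hI).sy.tr q1_0).rm hI _ _ _ _ m3).sc hI (-1) 5 (by norm_num) : W G 1 5 1 7)
  have q7_5 : W G 1 0 7 5 :=
    q0_1.tr (((q1_0.sy.tr q1_7).sw hI).sc hI 5 1 (by norm_num) : W G 0 1 7 5)
  have q1_6 : W G 1 0 1 6 :=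
    q1_7.tr (((q1_0.sy.tr (q8_5.mi hI)).rm hI _ _ _ _ m3).sc hI 5 (-5) (by norm_num) : W G 1 7 1 6)
  have q10_7 : W G 1 0 10 7 :=
    q7_5.tr (((q0_1.sy.tr q1_0).rm hI _ _ _ _ m4).sc hI (-1) (-5) (by norm_num) : W G 7 5 10 7)
  have q4_3 : W G 1 0 4 3 :=
    q7_5.tr ((((q1_0.sy.tr (q2_1.mi hI)).sw hI).rm hI _ _ _ _ m4).sc hI (-5) 5 (by norm_num) : W G 7 5 4 3)
  have q11_8 : W G 1 0 11 8 :=
    q7_5.tr ((((q1_0.sy.tr (q3_1.mi hI)).sw hI).rm hI _ _ _ _ m4).sc hI (-5) 5 (by norm_num) : W G 7 5 11 8)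
  have q11_7 : W G 1 0 11 7 :=
    (((q8_5.mi hI).tr ((((q1_1.mi hI).sy.tr q1_0).rm hI _ _ _ _ m5).sc hI 1 5 (by norm_num) : W G (-8) 5 (-11) 7)).st hI).sc hI (-1) 1 (by norm_num)
  have q9_5 : W G 1 0 9 5 :=
    (((q2_1.mi hI).tr ((((q2_5.mi hI).sy.tr (q1_2.mi hI)).rm hI _ _ _ _ m6).sc hI (-5) 1 (by norm_num) : W G (-2) 1 (-9) 5)).st hI).sc hI (-1) 1 (by norm_num)
  have q7_4 : W G 1 0 7 4 :=
    (((q9_5.mi hI).tr (((((q2_1.mi hI).sy.tr q1_0).sw hI).rm hI _ _ _ _ m7).sc hI (-1) 5 (by norm_num) : W G (-9) 5 (-7) 4)).st hI).sc hI (-1) 1 (by norm_num)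
  have q5_3 : W G 1 0 5 3 :=
    (((q7_4.mi hI).tr ((((q1_0.sy.tr (q8_5.mi hI)).sw hI).rm hI _ _ _ _ m7).sc hI 5 5 (by norm_num) : W G (-7) 4 (-5) 3)).st hI).sc hI (-1) 1 (by norm_num)
  have q5_4 : W G 1 0 5 4 :=
    q7_5.tr ((((q1_0.sy.tr (q5_3.mi hI)).sw hI).rm hI _ _ _ _ m4).sc hI (-5) 5 (by norm_num) : W G 7 5 5 4)
  have q3_7 : W G 1 0 3 7 :=
    q2_5.tr (((q2_1.sy.tr q1_0).rm hI _ _ _ _ m8).sc hI 1 5 (by norm_num) : W G 2 5 3 7)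
  have q7_3 : W G 1 0 7 3 :=
    (((q12_5.mi hI).tr ((((q2_1.sy.tr q1_0).sw hI).rm hI _ _ _ _ m9).sc hI (-1) 5 (by norm_num) : W G (-12) 5 (-7) 3)).st hI).sc hI (-1) 1 (by norm_num)
  have q7_8 : W G 1 0 7 8 :=
    q1_1.tr (((((q13_5.mi hI).sy.tr q1_0).sw hI).rm hI _ _ _ _ m10).sc hI 5 5 (by norm_num) : W G 1 1 7 8)
  have q6_7 : W G 1 0 6 7 :=
    q1_1.tr ((((q1_1.sy.tr q7_8).sw hI).rm hI _ _ _ _ m11).sc hI (-5) 5 (by norm_num) : W G 1 1 6 7)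
  have q3_5 : W G 1 0 3 5 :=
    q2_3.tr ((((q13_5.sy.tr q5_2).sw hI).rm hI _ _ _ _ m12).sc hI (-5) 1 (by norm_num) : W G 2 3 3 5)
  have q1_3 : W G 1 0 1 3 :=
    q0_1.tr (((q1_0.sy.tr q3_5).sw hI).sc hI 5 5 (by norm_num) : W G 0 1 1 3)
  have q1_4 : W G 1 0 1 4 :=
    (((q2_7.mi hI).tr (((q1_0.sy.tr q3_5).rm hI _ _ _ _ m1).sc hI 5 (-5) (by norm_num) : W G (-2) 7 (-1) 4)).st hI).sc hI (-1) 1 (by norm_num)
  have q4_5 : W G 1 0 4 5 :=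
    q0_1.tr (((q1_0.sy.tr q1_4).sw hI).sc hI 5 1 (by norm_num) : W G 0 1 4 5)
  have q8_11 : W G 1 0 8 11 :=
    (((q5_7.mi hI).tr (((q1_0.sy.tr q3_5).rm hI _ _ _ _ m2).sc hI (-5) (-5) (by norm_num) : W G (-5) 7 (-8) 11)).st hI).sc hI (-1) 1 (by norm_num)
  have q8_3 : W G 1 0 8 3 :=
    (((q13_5.mi hI).tr (((q1_5.sy.tr q1_4).rm hI _ _ _ _ m13).sc hI 1 (-1) (by norm_num) : W G (-13) 5 (-8) 3)).st hI).sc hI (-1) 1 (by norm_num)
  have q3_8 : W G 1 0 3 8 :=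
    (((q2_5.mi hI).tr ((((q1_2.mi hI).sy.tr (q3_5.mi hI)).rm hI _ _ _ _ m14).sc hI (-1) 5 (by norm_num) : W G (-2) 5 (-3) 8)).st hI).sc hI (-1) 1 (by norm_num)
  have q4_7 : W G 1 0 4 7 :=
    (((q3_5.mi hI).tr ((((q3_1.mi hI).sy.tr q1_0).rm hI _ _ _ _ m15).sc hI (-1) (-5) (by norm_num) : W G (-3) 5 (-4) 7)).st hI).sc hI (-1) 1 (by norm_num)
  have q7_9 : W G 1 0 7 9 :=
    (((q5_7.mi hI).tr ((((q0_1.sy.tr q4_7).sw hI).rm hI _ _ _ _ m2).sc hI (-5) (-5) (by norm_num) : W G (-5) 7 (-7) 9)).st hI).sc hI (-1) 1 (by norm_num)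
  have q5_8 : W G 1 0 5 8 :=
    q3_5.tr ((((q5_2.sy.tr q12_5).sw hI).rm hI _ _ _ _ m12).sc hI 1 5 (by norm_num) : W G 3 5 5 8)
  have q5_6 : W G 1 0 5 6 :=
    (((q5_7.mi hI).tr ((((q0_1.sy.tr q5_8).sw hI).rm hI _ _ _ _ m2).sc hI (-5) (-5) (by norm_num) : W G (-5) 7 (-5) 6)).st hI).sc hI (-1) 1 (by norm_num)
  have q11_13 : W G 1 0 11 13 :=
    (((q5_6.mi hI).tr (((((q2_1.mi hI).sy.tr (q5_2.mi hI)).sw hI).rm hI _ _ _ _ m16).sc hI (-5) 5 (by norm_num) : W G (-5) 6 (-11) 13)).st hI).sc hI (-1) 1 (by norm_num)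
  have q4_15 : W G 1 0 4 15 :=
    q0_1.tr (((q1_0.sy.tr q3_4).sw hI).sc hI 5 1 (by norm_num) : W G 0 1 4 15)
  have q8_15 : W G 1 0 8 15 :=
    q0_1.tr (((q1_0.sy.tr q3_8).sw hI).sc hI 5 1 (by norm_num) : W G 0 1 8 15)
  have q7_13 : W G 1 0 7 13 :=
    (((q1_2.mi hI).tr (((q3_4.sy.tr q7_9).rm hI _ _ _ _ m17).sc hI (-1) 1 (by norm_num) : W G (-1) 2 (-7) 13)).st hI).sc hI (-1) 1 (by norm_num)
  have q10_3 : W G 1 0 10 3 :=
    (((q7_2.mi hI).tr ((((q7_13.mi hI).sy.tr (q1_2.mi hI)).rm hI _ _ _ _ m18).sc hI (-1) (-1) (by norm_num) : W G (-7) 2 (-10) 3)).st hI).sc hI (-1) 1 (by norm_num)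
  have q16_5 : W G 1 0 16 5 :=
    q3_1.tr ((((q1_4.mi hI).sy.tr (q4_15.mi hI)).rm hI _ _ _ _ m19).sc hI 1 (-1) (by norm_num) : W G 3 1 16 5)
  have q13_4 : W G 1 0 13 4 :=
    q16_5.tr (((q1_2.sy.tr q8_15).rm hI _ _ _ _ m20).sc hI (-1) (-5) (by norm_num) : W G 16 5 13 4)
  have q5_9 : W G 1 0 5 9 :=
    q7_13.tr (((q7_2.sy.tr q13_4).rm hI _ _ _ _ m21).sc hI (-1) 1 (by norm_num) : W G 7 13 5 9)
  have q9_16 : W G 1 0 9 16 :=
    q4_7.tr ((((q4_7.mi hI).sy.tr (q5_9.mi hI)).rm hI _ _ _ _ m22).sc hI (-1) 1 (by norm_num) : W G 4 7 9 16)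
  intro c hc
  simp only [Cu, List.mem_cons, List.not_mem_nil, or_false] at hc
  rcases hc with rfl | rfl | rfl | rfl | rfl | rfl | rfl | rfl | rfl | rfl | rfl | rfl | rfl | rfl | rfl | rfl | rfl | rfl |
    rfl | rfl | rfl | rfl | rfl | rfl | rfl | rfl | rfl | rfl | rfl | rfl | rfl | rfl | rfl | rfl | rfl | rfl |
    rfl | rfl | rfl | rfl | rfl | rfl | rfl | rfl | rfl | rfl | rfl | rfl | rfl
  all_goals simp only [Nat.cast_one, Nat.cast_zero, Nat.cast_ofNat]; assumption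

private lemma abs_cusp (hI : Inv G) (h : ∀ c ∈ Cu, W G 1 0 (c.1 : ℤ) (c.2 : ℤ)) {x y : ℤ}
    (hc : (x.natAbs, y.natAbs) ∈ Cu) : W G 1 0 x y := by
  have e : W G 1 0 (x.natAbs : ℤ) (y.natAbs : ℤ) := h _ hc
  rcases Int.natAbs_eq x with hx | hx <;> rcases Int.natAbs_eq y with hy | hy <;> rw [hx, hy]
  · exact e
  · have := (e.ng hI).mi hI
    rwa [neg_neg] at this
  · exact e.mi hI
  · exact e.ng hI

end

set_option maxRecDepth 100000 in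
private lemma ok : ∀ t ∈ LH01 ++ LH10 ++ LH11 ++ LH12 ++ LH13 ++ LH14,
    t.1 * t.2.2.2 - t.2.1 * t.2.2.1 = 1 ∧
    (t.1.natAbs, t.2.2.1.natAbs) ∈ Cu ∧ (t.2.1.natAbs, t.2.2.2.natAbs) ∈ Cu := by decide

private lemma p01 : ∀ t ∈ LH01, (5 : ℤ) ∣ t.2.2.1 := by decide

private lemma p10 : ∀ t ∈ LH10, (5 : ℤ) ∣ t.2.2.2 := by decide

private lemma p11 : ∀ t ∈ LH11, (5 : ℤ) ∣ 1 * t.2.2.1 - t.2.2.2 := by decide

private lemma p12 : ∀ t ∈ LH12, (5 : ℤ) ∣ 2 * t.2.2.1 - t.2.2.2 := by decide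

private lemma p13 : ∀ t ∈ LH13, (5 : ℤ) ∣ 3 * t.2.2.1 - t.2.2.2 := by decide

private lemma p14 : ∀ t ∈ LH14, (5 : ℤ) ∣ 4 * t.2.2.1 - t.2.2.2 := by decide

/-- the condition modulo `7` -/
private def Cl (L : List (ℤ × ℤ × ℤ × ℤ)) : Prop :=
  ∀ p q r s : ZMod 7, p * s - q * r = 1 → ∃ t ∈ L,
    q * (t.1 : ZMod 7) - p * (t.2.1 : ZMod 7) = 0 ∧
      r * (t.2.2.2 : ZMod 7) - s * (t.2.2.1 : ZMod 7) = 0

set_option maxRecDepth 100000 in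
private lemma cls01 : Cl LH01 := by unfold Cl; decide

set_option maxRecDepth 100000 in
private lemma cls10 : Cl LH10 := by unfold Cl; decide

set_option maxRecDepth 100000 in
private lemma cls11 : Cl LH11 := by unfold Cl; decide

set_option maxRecDepth 100000 in
private lemma cls12 : Cl LH12 := by unfold Cl; decide

set_option maxRecDepth 100000 in
private lemma cls13 : Cl LH13 := by unfold Cl; decide

set_option maxRecDepth 100000 in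
private lemma cls14 : Cl LH14 := by unfold Cl; decide

/-- a common step -/
private lemma stepκ {L : List (ℤ × ℤ × ℤ × ℤ)} (hL : Cl L) (κ : ℤ)
    (hp : ∀ t ∈ L, (5 : ℤ) ∣ κ * t.2.2.1 - t.2.2.2) {p q r s : ℤ} (h : p * s - q * r = 1)
    (hk : (5 : ℤ) ∣ κ * r - s) : ∃ t ∈ L,
    (7 : ℤ) ∣ q * t.1 - p * t.2.1 ∧ (7 : ℤ) ∣ r * t.2.2.2 - s * t.2.2.1 ∧
      (5 : ℤ) ∣ r * t.2.2.2 - s * t.2.2.1 := by
  have hc : (p : ZMod 7) * s - q * r = 1 := by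
    have h' := congrArg (Int.cast : ℤ → ZMod 7) h
    push_cast at h'
    exact h'
  obtain ⟨t, ht, e1, e2⟩ := hL _ _ _ _ hc
  refine ⟨t, ht, dvd7.2 (by push_cast; exact e1), dvd7.2 (by push_cast; exact e2), ?_⟩
  obtain ⟨a, ha⟩ := hp t ht
  obtain ⟨b, hb⟩ := hk
  exact ⟨b * t.2.2.1 - r * a, by linear_combination t.2.2.1 * hb - r * ha⟩

/-- the representative of a matrix -/
private lemma rep {p q r s : ℤ} (h : p * s - q * r = 1) :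
    ∃ t ∈ LH01 ++ LH10 ++ LH11 ++ LH12 ++ LH13 ++ LH14,
    (7 : ℤ) ∣ q * t.1 - p * t.2.1 ∧ (7 : ℤ) ∣ r * t.2.2.2 - s * t.2.2.1 ∧
      (5 : ℤ) ∣ r * t.2.2.2 - s * t.2.2.1 := by
  have hc : (p : ZMod 7) * s - q * r = 1 := by
    have h' := congrArg (Int.cast : ℤ → ZMod 7) h
    push_cast at h'
    exact h'
  by_cases hr : (5 : ℤ) ∣ r
  · obtain ⟨t, ht, e1, e2⟩ := cls01 _ _ _ _ hc
    refine ⟨t, by simp [ht], dvd7.2 (by push_cast; exact e1), dvd7.2 (by push_cast; exact e2),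
      dvd_sub (Dvd.dvd.mul_right hr _) (Dvd.dvd.mul_left (p01 t ht) _)⟩
  by_cases hs : (5 : ℤ) ∣ s
  · obtain ⟨t, ht, e1, e2⟩ := cls10 _ _ _ _ hc
    refine ⟨t, by simp [ht], dvd7.2 (by push_cast; exact e1), dvd7.2 (by push_cast; exact e2),
      dvd_sub (Dvd.dvd.mul_left (p10 t ht) _) (Dvd.dvd.mul_right hs _)⟩
  by_cases h1 : (5 : ℤ) ∣ 1 * r - s
  · obtain ⟨t, ht, e⟩ := stepκ cls11 1 p11 h h1
    exact ⟨t, by simp [ht], e⟩
  by_cases h2 : (5 : ℤ) ∣ 2 * r - s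
  · obtain ⟨t, ht, e⟩ := stepκ cls12 2 p12 h h2
    exact ⟨t, by simp [ht], e⟩
  by_cases h3 : (5 : ℤ) ∣ 3 * r - s
  · obtain ⟨t, ht, e⟩ := stepκ cls13 3 p13 h h3
    exact ⟨t, by simp [ht], e⟩
  have h4 : (5 : ℤ) ∣ 4 * r - s := by
    have a1 : r % 5 = 1 ∨ r % 5 = 2 ∨ r % 5 = 3 ∨ r % 5 = 4 := by omega
    have a2 : s % 5 = 1 ∨ s % 5 = 2 ∨ s % 5 = 3 ∨ s % 5 = 4 := by omega
    rcases a1 with a1 | a1 | a1 | a1 <;> rcases a2 with a2 | a2 | a2 | a2 <;> omega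
  obtain ⟨t, ht, e⟩ := stepκ cls14 4 p14 h h4
  exact ⟨t, by simp [ht], e⟩

/-- Module E1B. -/
theorem hE1B : StHE1b := by
  intro he _ hfar k G hk hB hz
  obtain ⟨j, rfl⟩ : ∃ j, k = j + 2 := ⟨k - 2, by omega⟩
  obtain ⟨hS, -, -, hW, hT⟩ := hB
  have hI : Inv G := by
    refine ⟨hS.1, ?_, ?_⟩
    · intro x y z w h1 h2
      have e := hT.diff h1 h2
      simp only [act] at e
      rw [← e]
      congr 2 <;> ring
    · intro x y z w h1 h2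
      have e := hW.diff h1 h2
      have f := hT.diff (swq' h1) (swq' h2)
      simp only [act, Pi.neg_apply] at e f
      have e1 : ∀ s t : ℤ, G (-1 * (-t) + 0 * (5 * s)) (0 * (-t) + 1 * (5 * s)) = G t (5 * s) := by
        intro s t; congr 1 <;> ring
      have e2 : ∀ s t : ℤ, G (0 * s + -1 * t) (5 * s + 0 * t) = G (-t) (5 * s) := by
        intro s t; congr 1 <;> ring
      rw [e1, e1] at f
      rw [e2, e2] at e
      rw [f, e]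
      ring
  have key : ∀ u1 u2 v1 v2 : ℤ, (u1 ≠ 0 ∨ u2 ≠ 0) → (v1 ≠ 0 ∨ v2 ≠ 0) →
      (∀ x y : ZMod (7 ^ (j + 1)), edgeH 1 u1 u2 v1 v2 G x y = 0) → W G u1 u2 v1 v2 := by
    intro u1 u2 v1 v2 hu hv h0
    refine ⟨hu, hv, fun a b c d hg => ?_⟩
    have hg' : HTy a (7 ^ 1 * b) (7 * c) d := by rwa [pow_one]
    obtain ⟨x, y, hp⟩ := exPl j hg'
    have e := he ℂ _ 1 (j + 1) (j + 1) G hS u1 u2 v1 v2 hu hv x y a b c d hp
    rw [h0 x y, pow_one] at e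
    exact (sub_eq_zero.1 e.symm)
  have h1 : W G 1 0 0 1 := key 1 0 0 1 (by norm_num) (by norm_num) fun x y =>
    (hz x y).1.1.1
  have h2 : W G 1 0 1 2 := key 1 0 1 2 (by norm_num) (by norm_num) fun x y =>
    (hz x y).1.1.2
  have h3 : W G 1 0 1 1 := key 1 0 1 1 (by norm_num) (by norm_num) fun x y =>
    (hz x y).1.2.1
  have h4 : W G 1 1 3 2 := key 1 1 3 2 (by norm_num) (by norm_num) fun x y =>
    (hz x y).1.2.2
  have h5 : W G 1 0 2 1 := key 1 0 2 1 (by norm_num) (by norm_num) fun x y =>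
    (hz x y).2.1.1.1
  have h6 : W G 8 5 3 2 := key 8 5 3 2 (by norm_num) (by norm_num) fun x y =>
    (hz x y).2.1.1.2
  have h7 : W G 5 2 12 5 := key 5 2 12 5 (by norm_num) (by norm_num) fun x y =>
    (hz x y).2.1.2.1
  have h8 : W G 12 5 2 1 := key 12 5 2 1 (by norm_num) (by norm_num) fun x y =>
    (hz x y).2.1.2.2
  have h9 : W G 1 0 3 1 := key 1 0 3 1 (by norm_num) (by norm_num) fun x y =>
    (hz x y).2.2.1.1
  have h10 : W G 3 1 13 5 := key 3 1 13 5 (by norm_num) (by norm_num) fun x y =>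
    (hz x y).2.2.1.2
  have h11 : W G 1 0 7 2 := key 1 0 7 2 (by norm_num) (by norm_num) fun x y =>
    (hz x y).2.2.2.1
  have h12 : W G 1 1 2 3 := key 1 1 2 3 (by norm_num) (by norm_num) fun x y =>
    (hz x y).2.2.2.2
  have hC := cusps hI h1 h2 h3 h4 h5 h6 h7 h8 h9 h10 h11 h12
  refine hfar ℂ _ G hS.1 fun p q r s h => ?_
  obtain ⟨t, ht, d1, d2, d3⟩ := rep h
  obtain ⟨f1, f2, f3⟩ := ok t ht
  exact one f1 ((abs_cusp hI hC f2).sy.tr (abs_cusp hI hC f3)) h d1 d2 d3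

end Pool.Agent.Helper44.Q5P7
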